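import Pool.Agent.R639.CT.Ex4

/-!
# A non-conical point whose preimage has positive Hausdorff dimension

Definitions: `Pool.Agent.H322R3.HypDefs` (word-hyperbolic groups, Gromov boundary, convergence
actions), `Pool.Agent.R639.CT.Defs` (`ConvTo`, `basis`, `hausdorffDim`) and
`Pool.Agent.R639.CT.ZDefs` (limit set, conical points, visual metrics).

The example: `H` is the free group with basis `a, b, c`. To a boundary point `ξ` we associate the
function `Phi ξ` on `H` with values in `{0, 1}` such that `Phi ξ h = 1` iff `h⁻¹ ξ` starts with `c`.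
The set `Z` of the functions `Phi ξ` is closed in the product of the spaces `{0, 1}`, and `Phi` is
the quotient map which identifies `ξ` and `η` iff they both lie in one translate of `∂⟨a, b⟩`. So
`⟨a, b⟩` is an accidental parabolic subgroup, its fixed point `z0` is not conical, and the preimage
of `z0` is `∂⟨a, b⟩`, a set of positive dimension.
-/

set_option autoImplicit false

namespace Pool.Agent.Results.MP_9c739d_al.NonConicalPreimagePosDim

open Filter Topology Pool.Agent.H322R3.Hyp Pool.Agent.R639.CT

/-- The free group `H` of rank three with its basis is word-hyperbolic and not virtually cyclic, and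
there are a compact metrizable space `Z`, a convergence action of `H` on `Z` by homeomorphisms with
at least three limit points and a continuous equivariant map `f : ∂H → Z` (which extends the orbit
map of some point `z0` of `Z`), such that the preimage of the set of non-conical limit points has
positive Hausdorff dimension with respect to every visual metric on `∂H` (with arbitrary
parameter `a > 1`); a visual metric with parameter `2` exists. -/
theorem result :
    (basis 3).Finite ∧ Subgroup.closure (basis 3) = ⊤ ∧ IsHyperbolic (basis 3) ∧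
    (∀ g : FreeGroup (Fin 3), (Subgroup.zpowers g).index = 0) ∧
    ∃ (Z : Type) (_ : TopologicalSpace Z) (_ : CompactSpace Z)
      (_ : TopologicalSpace.MetrizableSpace Z) (_ : MulAction (FreeGroup (Fin 3)) Z),
      (∀ g : FreeGroup (Fin 3), Continuous fun z : Z => g • z) ∧
      IsConvergenceAction (FreeGroup (Fin 3)) Z ∧
      (∃ z₁ ∈ limitSet (FreeGroup (Fin 3)) Z, ∃ z₂ ∈ limitSet (FreeGroup (Fin 3)) Z,
        ∃ z₃ ∈ limitSet (FreeGroup (Fin 3)) Z, z₁ ≠ z₂ ∧ z₁ ≠ z₃ ∧ z₂ ≠ z₃) ∧
      ∃ f : Boundary (basis 3) → Z, Continuous f ∧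
        (∀ (g : FreeGroup (Fin 3)) (ξ : Boundary (basis 3)),
          f (bsmul (closure_basis 3) g ξ) = g • f ξ) ∧
        (∃ z₀ : Z, ∀ (x : ℕ → FreeGroup (Fin 3)) (ξ : Boundary (basis 3)),
          ConvTo (basis 3) x ξ → Tendsto (fun n => x n • z₀) atTop (𝓝 (f ξ))) ∧
        (∀ (a : ℝ), 1 < a → ∀ m : MetricSpace (Boundary (basis 3)), IsVisualCayley (basis 3) a m →
          0 < hausdorffDim m {p | f p ∈ limitSet (FreeGroup (Fin 3)) Z ∧
            ¬ IsConicalPoint (FreeGroup (Fin 3)) (f p)}) ∧
        ∃ m : MetricSpace (Boundary (basis 3)), IsVisualCayley (basis 3) 2 m := by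
  refine ⟨finite_basis 3, closure_basis 3, isHyperbolic_free, index_zpowers, ZZ, inferInstance,
    inferInstance, inferInstance, inferInstance, continuous_smulZ, convZ,
    ⟨z0, limitZ _, cc • z0, limitZ _, (cc * cc) • z0, limitZ _, three_points⟩, ff3,
    ff3_continuous, ff3_smul, ⟨z0, ff3_limit⟩, fun a ha m hm => ?_, bmetric 3, isVisual_bmetric 3⟩
  refine (dim_bw' a ha m hm).trans_le ?_
  refine @dimH_mono _ (@MetricSpace.toEMetricSpace _ m) _ _ ?_
  rintro _ ⟨w, rfl⟩
  refine ⟨limitZ _, ?_⟩
  rw [ff3_bw]
  exact not_conical_z0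

end Pool.Agent.Results.MP_9c739d_al.NonConicalPreimagePosDim
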